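import Mathlib
import Pool.Agent.H212R4.IndCol

open Cardinal

universe u

namespace Pool.Agent.Results.MP_279ba3_co.InducedCountable

/-- The colouring number of a graph: the least cardinal `κ` such that some well-ordering of the
vertices has the property that every vertex has fewer than `κ` smaller neighbours. -/
noncomputable def col {V : Type u} (G : SimpleGraph V) : Cardinal.{u} :=
  sInf {κ : Cardinal.{u} | ∃ r : V → V → Prop, IsWellOrder V r ∧
    ∀ x : V, #{y : V // G.Adj x y ∧ r y x} < κ}

/-- If some countable set of vertices of a graph induces a subgraph with colouring number at least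
the natural number `n`, then it contains a set of vertices which induces a subgraph with colouring
number exactly `n`. -/
theorem result (V : Type u) (G : SimpleGraph V) (n : ℕ) (C : Set V) (hC : C.Countable)
    (hn : (n : Cardinal.{u}) ≤ col (G.induce C)) :
    ∃ W ⊆ C, col (G.induce W) = (n : Cardinal.{u}) := by
  have : Countable C := hC.to_subtype
  obtain ⟨W, hW⟩ := Pool.Agent.H212R4.IndCol.main (G.induce C) n hn
  refine ⟨Subtype.val '' W, ?_, ?_⟩
  · rintro _ ⟨x, _, rfl⟩
    exact x.2
  · rw [← hW]
    symm
    apply Pool.Agent.Results.MP_279ba3_co.ColoringNumberStep.col_iso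
    exact ⟨Equiv.Set.image Subtype.val W Subtype.val_injective, Iff.rfl⟩

end Pool.Agent.Results.MP_279ba3_co.InducedCountable
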